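import Pool.Agent.Lib.MP_b5021c_nt.E.H29.Pav
import Pool.Agent.Lib.MP_b5021c_nt.E2.H80.Trez
import Pool.Agent.Lib.MP_b5021c_nt.B.H07.Zfi

/-!
# MP_b5021c_nt, ALL THETA, rows PAVZ, TRVO, E3VO, O5 (helper67)

The terminal case in class `V` over `ℤ` for all real `a`, `|a| ≤ 1/2`, with the gain of one when
the total mass exceeds the rank.
-/

namespace Pool.Agent.B5.H67

open scoped LaurentPolynomial Topology
open Polynomial Pool.Agent.B5 Pool.Agent.B5.Nr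
open Pool.Agent.B5.H65 (pmn_sum rsh_coeff0)

/-- (PAVZ) the Poisson inequality for `2q/v - 1` with the singular part. -/
def PavzS : Prop := ∀ (q v r : ℂ[X]) (a : ℂ), (∀ z : ℂ, ‖z‖ ≤ 1 → q.eval z ≠ 0) →
  (∀ z : ℂ, ‖z‖ < 1 → v.eval z ≠ 0) →
  (∀ z : ℂ, ‖z‖ = 1 → ‖v.eval z - q.eval z‖ ≤ ‖q.eval z‖) → ‖a‖ < 1 →
  (∀ z : ℂ, ‖z‖ = 1 → v.eval z ≠ 0 → (r.eval z).re = 2 * (q.eval z / v.eval z).re - 1) →
    (r.eval 0).re ≤ 2 * (q.eval 0 / v.eval 0).re - 1 ∧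
    (r.eval a).re + (1 - ‖a‖) / (1 + ‖a‖) *
        (2 * (q.eval 0 / v.eval 0).re - 1 - (r.eval 0).re) ≤
      2 * (q.eval a / v.eval a).re - 1 ∧
    ((∃ z0 : ℂ, ‖z0‖ = 1 ∧ v.eval z0 = 0) → (r.eval 0).re < 2 * (q.eval 0 / v.eval 0).re - 1)

/-- (TRVO) TERMINAL CASE in class `V` over `ℤ`: a load into class `V(1)`, all real `a`,
`|a| ≤ 1/2`; a gain of (almost) one if `rank < 2 |q(0)|`, or if `v` has a zero on the circle. -/
def TrvoS : Prop := ∀ (P L : Type) [Fintype P] [DecidableEq P] [AddCommGroup L] [Module.Free ℤ L]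
  [Module.Finite ℤ L] (phi : L →+ (P → ℤ)) (D : AO ℤ L) (S : L) (eta : (RO ℤ)ˣ) (m : ℤ)
  (q v : ℤ[X]),
    DD phi D → 2 ≤ Module.finrank ℤ L → Ray D S →
    D.coeff 0 = LaurentPolynomial.T m * toLaurent q →
    D.coeff 0 + (eta : RO ℤ) * D.coeff S = LaurentPolynomial.T m * toLaurent v →
    ZF (q.map Coef.emb) → ZF (v.map Coef.emb) → |v.coeff 0| = 1 →
      ∀ a : ℝ, |a| ≤ 1 / 2 →
        (Module.finrank ℤ L : ℝ) ≤
          2 * ((q.map Coef.emb).eval (a : ℂ) / (v.map Coef.emb).eval (a : ℂ)).re ∧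
        ((Module.finrank ℤ L : ℤ) < 2 * |q.coeff 0| →
          (Module.finrank ℤ L : ℝ) + 1 - 2 * |a| ≤
            2 * ((q.map Coef.emb).eval (a : ℂ) / (v.map Coef.emb).eval (a : ℂ)).re) ∧
        ((∃ z0 : ℂ, ‖z0‖ = 1 ∧ (v.map Coef.emb).eval z0 = 0) →
          (Module.finrank ℤ L : ℝ) + (1 - |a|) / (1 + |a|) ≤
            2 * ((q.map Coef.emb).eval (a : ℂ) / (v.map Coef.emb).eval (a : ℂ)).re)

/-- (E3VO) a small non-pure factor at a class `V` load with `|b(0)| = 1`, over `ℤ`, all real `a`,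
`|a| ≤ 1/2`. -/
def E3voS : Prop := ∀ (P L : Type) [Fintype P] [DecidableEq P] [AddCommGroup L] [Module.Free ℤ L]
  [Module.Finite ℤ L] (phi : L →+ (P → ℤ)) (D : AO ℤ L) (S : L) (i0 : P) (eta : (RO ℤ)ˣ)
  (h : co phi i0 S = 1) (c : RO ℤ) (n : ℕ) (G : Fin n → AO ℤ (Ker (co phi i0))),
    FD phi D S i0 eta h c n G → M c = 1 → (snp phi S i0 G).Nonempty →
    ∀ (m : ℤ) (q b : ℤ[X]), D.coeff 0 = LaurentPolynomial.T m * toLaurent q →
      (eta : RO ℤ) * D.coeff S = LaurentPolynomial.T m * toLaurent b →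
      ZF (q.map Coef.emb) → ZF ((q + b).map Coef.emb) → |b.coeff 0| = 1 →
      2 < |(q + b).coeff 0| →
        ZF (b.map Coef.emb) ∧ ∀ a : ℝ, |a| ≤ 1 / 2 →
          (Module.finrank ℤ L : ℝ) ≤
            -(2 * ((q.map Coef.emb).eval (a : ℂ) / (b.map Coef.emb).eval (a : ℂ)).re) ∧
          ((Module.finrank ℤ L : ℤ) < 2 * |q.coeff 0| →
            (Module.finrank ℤ L : ℝ) + 1 - 2 * |a| ≤
              -(2 * ((q.map Coef.emb).eval (a : ℂ) / (b.map Coef.emb).eval (a : ℂ)).re)) ∧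
          ((∃ z0 : ℂ, ‖z0‖ = 1 ∧ (b.map Coef.emb).eval z0 = 0) →
            (Module.finrank ℤ L : ℝ) + (1 - |a|) / (1 + |a|) ≤
              -(2 * ((q.map Coef.emb).eval (a : ℂ) / (b.map Coef.emb).eval (a : ℂ)).re))

/-- (O5) no small non-pure factor at a load of `G ∈ V(j+1)` of rank `2j` into class `V(j)`
(`|b(0)| = 1`) with `-G_0(a)/b(a) = 1/(a(1+a))`, `1/(j+1) < a ≤ 1/2`, `j ≥ 3`. -/
def O5S : Prop := ∀ (P L : Type) [Fintype P] [DecidableEq P] [AddCommGroup L] [Module.Free ℤ L]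
  [Module.Finite ℤ L] (phi : L →+ (P → ℤ)) (D : AO ℤ L) (S : L) (i0 : P) (eta : (RO ℤ)ˣ)
  (h : co phi i0 S = 1) (c : RO ℤ) (n : ℕ) (G : Fin n → AO ℤ (Ker (co phi i0))),
    FD phi D S i0 eta h c n G → M c = 1 →
    ∀ (m : ℤ) (q b : ℤ[X]) (j : ℕ) (a : ℝ), 3 ≤ j → Module.finrank ℤ L = 2 * j →
      D.coeff 0 = LaurentPolynomial.T m * toLaurent q →
      (eta : RO ℤ) * D.coeff S = LaurentPolynomial.T m * toLaurent b →
      ZF (q.map Coef.emb) → ZF ((q + b).map Coef.emb) → |b.coeff 0| = 1 →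
      |q.coeff 0| = j + 1 → |(q + b).coeff 0| = j →
      a ≤ 1 / 2 → 1 < ((j : ℝ) + 1) * a →
      -((q.map Coef.emb).eval (a : ℂ) / (b.map Coef.emb).eval (a : ℂ)).re * (a * (1 + a)) ≤ 1 →
        ¬ (snp phi S i0 G).Nonempty

/-- A holomorphic function with nonnegative real part which vanishes at the centre is constant. -/
theorem cst_re {W : ℂ → ℂ} (hd : DifferentiableOn ℂ W (Metric.ball 0 1))
    (hp : ∀ z : ℂ, ‖z‖ < 1 → 0 ≤ (W z).re) (h0 : (W 0).re ≤ 0) :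
    ∀ z : ℂ, ‖z‖ < 1 → W z = W 0 := by
  have han : AnalyticOnNhd ℂ W (Metric.ball 0 1) := hd.analyticOnNhd Metric.isOpen_ball
  have h00 : (0 : ℂ) ∈ Metric.ball (0 : ℂ) 1 := Metric.mem_ball_self one_pos
  rcases han.is_constant_or_isOpen (convex_ball (0 : ℂ) 1).isPreconnected with ⟨w, hw⟩ | hop
  · intro z hz
    rw [hw z (by simpa using hz), hw 0 h00]
  · exfalso
    have h1 := hop (Metric.ball 0 1) subset_rfl Metric.isOpen_ball
    obtain ⟨ε, hε, hsub⟩ := Metric.isOpen_iff.mp h1 (W 0) ⟨0, h00, rfl⟩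
    obtain ⟨z, hz, hzw⟩ := hsub (show W 0 - ((ε / 2 : ℝ) : ℂ) ∈ Metric.ball (W 0) ε by
      rw [Metric.mem_ball, dist_eq_norm, sub_sub_cancel_left, norm_neg, Complex.norm_real,
        Real.norm_eq_abs, abs_of_pos (by linarith)]
      linarith)
    have h2 := hp z (by simpa using hz)
    rw [hzw, Complex.sub_re, Complex.ofReal_re] at h2
    linarith

theorem pavz (hPav : PavS) (hHar : HarS) : PavzS := by
  intro q v r a hq hv hle ha hr
  have hd : DifferentiableOn ℂ (fun z : ℂ => 2 * (q.eval z / v.eval z) - 1 - r.eval z)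
      (Metric.ball 0 1) := by
    intro w hw
    have hw' : ‖w‖ < 1 := by simpa using hw
    exact ((((q.differentiable.differentiableAt.div v.differentiable.differentiableAt
      (hv w hw')).const_mul 2).sub_const 1).sub
        r.differentiable.differentiableAt).differentiableWithinAt
  have e : ∀ z : ℂ, (2 * (q.eval z / v.eval z) - 1 - r.eval z).re =
      2 * (q.eval z / v.eval z).re - 1 - (r.eval z).re := by
    intro z
    rw [Complex.sub_re, Complex.sub_re, Complex.one_re,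
      show (2 : ℂ) * (q.eval z / v.eval z) = ((2 : ℝ) : ℂ) * (q.eval z / v.eval z) by norm_num,
      Complex.re_ofReal_mul]
  have hp : ∀ z : ℂ, ‖z‖ < 1 → 0 ≤ (2 * (q.eval z / v.eval z) - 1 - r.eval z).re := by
    intro z hz
    rw [e]
    linarith [hPav q v r z hq hv hle hz hr]
  have h1 := hHar _ a hd hp ha
  have h0 := hp 0 (by simp)
  have h2 := h0
  rw [e] at h0
  rw [e, e] at h1
  refine ⟨by linarith, by linarith, ?_⟩
  rintro ⟨z0, hz0, hvz0⟩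
  by_contra hnot
  push Not at hnot
  have hc := cst_re hd hp (by rw [e]; linarith)
  set w : ℂ := 2 * (q.eval 0 / v.eval 0) - 1 - r.eval 0 with hw
  have hP : C 2 * q - v - r * v - C w * v = 0 := by
    apply Polynomial.eq_zero_of_infinite_isRoot
    refine Set.Infinite.mono (s := Metric.ball (0 : ℂ) 1) ?_ ?_
    · intro z hz
      have hz' : ‖z‖ < 1 := by simpa using hz
      have h3 := hc z hz'
      have h4 := hv z hz'
      rw [Set.mem_ofPred_eq, Polynomial.IsRoot.def]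
      simp only [eval_sub, eval_mul, eval_C]
      have h5 : 2 * (q.eval z / v.eval z) = w + 1 + r.eval z := by
        linear_combination h3
      have h6 : 2 * q.eval z = (w + 1 + r.eval z) * v.eval z := by
        rw [← h5, mul_assoc, div_mul_cancel₀ _ h4]
      linear_combination h6
    · have h3 : (nhds (0 : ℂ)).NeBot := inferInstance
      exact infinite_of_mem_nhds (0 : ℂ) (Metric.ball_mem_nhds 0 one_pos)
  have h3 := congrArg (fun p : ℂ[X] => p.eval z0) hP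
  simp only [eval_sub, eval_mul, eval_C, eval_zero, hvz0, mul_zero, sub_zero] at h3
  exact hq z0 hz0.le (by simpa using h3)

theorem trvo (hTrg : TrgS) (hPai : PaiS) (hPavz : PavzS) (hPmf : PmfS) (hSnr : SnrS)
    (hE2 : E2S) (hEv : EvRS) : TrvoS := by
  intro P L _ _ _ _ _ phi D S eta m q v hDD hrk hS hq hv hqz hvz hv1 a ha
  obtain ⟨hEv1, hEv2, hEv3, hEv4⟩ := hEv ℤ
  obtain ⟨hQ0, -, -, -, -, hray⟩ := hE2 ℤ P L phi D hDD hrk
  obtain ⟨hle, -⟩ := hray S hS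
  set Q : RO ℤ := D.coeff 0 with hQ
  set V : RO ℤ := D.coeff 0 + (eta : RO ℤ) * D.coeff S with hV
  set qc : ℂ[X] := q.map (Coef.emb : ℤ →+* ℂ) with hqc
  set vc : ℂ[X] := v.map (Coef.emb : ℤ →+* ℂ) with hvc
  have evq : ∀ z : Circle, evR z Q = (z : ℂ) ^ m * qc.eval (z : ℂ) := fun z => by
    rw [hq, map_mul, H07.evR_T, H07.evR_toLaurent, hqc, eval_map]
  have evv : ∀ z : Circle, evR z V = (z : ℂ) ^ m * vc.eval (z : ℂ) := fun z => by
    rw [hv, map_mul, H07.evR_T, H07.evR_toLaurent, hvc, eval_map]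
  have hzm : ∀ z : Circle, ‖(z : ℂ) ^ m‖ = 1 := fun z => by simp
  have hzm0 : ∀ z : Circle, (z : ℂ) ^ m ≠ 0 := fun z => by
    rw [← norm_pos_iff, hzm]; norm_num
  have mk : ∀ z : ℂ, ‖z‖ = 1 → ∃ w : Circle, (w : ℂ) = z := fun z hz =>
    ⟨⟨z, by simpa [Submonoid.unitSphere] using hz⟩, rfl⟩
  have hqn : ∀ z : ℂ, ‖z‖ ≤ 1 → qc.eval z ≠ 0 := by
    intro z hz
    rcases hz.lt_or_eq with h | h
    · exact hqz z h
    · obtain ⟨w, rfl⟩ := mk z h
      intro h0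
      exact hQ0 w (by rw [evq, h0, mul_zero])
  have hlq : ∀ z : ℂ, ‖z‖ = 1 → ‖vc.eval z - qc.eval z‖ ≤ ‖qc.eval z‖ := by
    intro z hz
    obtain ⟨w, rfl⟩ := mk z hz
    have h1 : V - Q = (eta : RO ℤ) * D.coeff S := by rw [hV, hQ]; ring
    have h2 : ‖evR w (V - Q)‖ ≤ ‖evR w Q‖ := by
      rw [h1, map_mul, norm_mul, hEv2 w _ eta.isUnit, one_mul]
      exact hle w
    rw [map_sub, evq, evv, ← mul_sub, norm_mul, norm_mul, hzm, one_mul, one_mul] at h2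
    exact h2
  have hv1' : ‖(Coef.emb (v.coeff 0) : ℂ)‖ = 1 := by
    have h2 : (Coef.emb (v.coeff 0) : ℂ) = ((v.coeff 0 : ℤ) : ℂ) := by
      change (Int.castRingHom ℂ) _ = _
      exact eq_intCast _ _
    rw [h2, Complex.norm_intCast]
    exact_mod_cast hv1
  have hCV : ClassV 1 V := ⟨le_rfl, m, v, hv, hv1', hvz⟩
  have hquot : ∀ z : ℂ, ‖z‖ = 1 → evL z Q / evL z V = qc.eval z / vc.eval z := by
    intro z hz
    obtain ⟨w, rfl⟩ := mk z hz
    rw [hEv1, hEv1, evq, evv, mul_div_mul_left _ _ (hzm0 w)]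
  have hci : CircleIntegrable (fun z => (evL z Q / evL z V).re) 0 1 := by
    refine (circleIntegrable_congr fun z hz => ?_).mpr (hPai qc vc hqn hvz hlq)
    have hz1 : ‖z‖ = 1 := by simpa using hz
    simp only [hquot z hz1]
  obtain ⟨i0, n, f, T, hT0, hTn, hrank, hsum⟩ := hTrg ℤ P L phi D S eta hDD hrk hS hCV hci
  have hrs : rsh (∑ i, (T i).coeff 0) = ∑ i, (T i).coeff 0 := by
    rw [map_sum]
    exact Finset.sum_congr rfl fun i _ => rsh_coeff0 (T i) (hTn i).1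
  have hna : ‖(a : ℂ)‖ = |a| := by rw [Complex.norm_real, Real.norm_eq_abs]
  have ha1 : ‖(a : ℂ)‖ < 1 := by rw [hna]; linarith
  have ha0 : 0 ≤ |a| := abs_nonneg a
  obtain ⟨r, hr0, hr1, hr2, -⟩ := hPmf ℤ (∑ i, (T i).coeff 0) (a : ℂ) ha1 hrs
  obtain ⟨hk0, hkey, hks⟩ := hPavz qc vc r (a : ℂ) hqn hvz hlq ha1 (by
    intro z hz hvz0
    obtain ⟨w, rfl⟩ := mk z hz
    have hV0 : evR w V ≠ 0 := by
      rw [evv]; exact mul_ne_zero (hzm0 w) hvz0
    have h1 := hsum w hV0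
    rw [hr1 w] at h1
    rw [h1, evq, evv, mul_div_mul_left _ _ (hzm0 w)])
  rw [← hr2, pmn_sum hEv1 (a : ℂ) ha1, hna] at hkey
  -- values at zero
  have hemb : ∀ x : ℤ, (Coef.emb x : ℂ) = (x : ℂ) := fun x => by
    change (Int.castRingHom ℂ) _ = _
    exact eq_intCast _ _
  have hq0 : qc.eval 0 = ((q.coeff 0 : ℤ) : ℂ) := by
    rw [← coeff_zero_eq_eval_zero, hqc, coeff_map, hemb]
  have hv0 : vc.eval 0 = ((v.coeff 0 : ℤ) : ℂ) := by
    rw [← coeff_zero_eq_eval_zero, hvc, coeff_map, hemb]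
  have hrr : (r.eval 0).re = (((∑ i, (T i).coeff 0).coeff 0 : ℤ) : ℝ) := by
    rw [← coeff_zero_eq_eval_zero, hr0, hemb, Complex.intCast_re]
  have hvv : (v.coeff 0 : ℤ) * v.coeff 0 = 1 := by
    rw [← abs_mul_abs_self, hv1, one_mul]
  have hqv : (qc.eval 0 / vc.eval 0).re = ((q.coeff 0 * v.coeff 0 : ℤ) : ℝ) := by
    have h1 : qc.eval 0 / vc.eval 0 = ((q.coeff 0 * v.coeff 0 : ℤ) : ℂ) := by
      rw [hq0, hv0]
      have h2 : ((v.coeff 0 : ℤ) : ℂ) * ((v.coeff 0 : ℤ) : ℂ) = 1 := by exact_mod_cast hvv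
      have h3 : ((v.coeff 0 : ℤ) : ℂ) ≠ 0 := fun h => by rw [h, mul_zero] at h2; exact zero_ne_one h2
      rw [div_eq_iff h3]
      push_cast
      rw [mul_assoc, h2, mul_one]
    rw [h1, Complex.intCast_re]
  set N : ℤ := q.coeff 0 * v.coeff 0 with hN
  have hNabs : |N| = |q.coeff 0| := by rw [hN, abs_mul, hv1, mul_one]
  rw [hqv, hrr] at hk0 hkey hks
  -- the constant coefficients
  have hsn : ∀ i, 1 + (rk (supp (T i)) : ℝ) ≤ pmn (a : ℂ) ((T i).coeff 0) := fun i =>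
    (hSnr (Ker (f i)) (T i) a ha (hT0 i) (hTn i)).1
  have hc0 : ∀ i, 1 + (rk (supp (T i)) : ℤ) ≤ ((T i).coeff 0).coeff 0 := by
    intro i
    have h1 := (hSnr (Ker (f i)) (T i) 0 (by norm_num) (hT0 i) (hTn i)).1
    rw [Complex.ofReal_zero] at h1
    obtain ⟨r', hr0', -, hr1', -⟩ := hPmf ℤ ((T i).coeff 0) 0 (by norm_num)
      (rsh_coeff0 (T i) (hTn i).1)
    rw [hr1', ← Polynomial.coeff_zero_eq_eval_zero, hr0', hemb, Complex.intCast_re] at h1
    exact_mod_cast h1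
  have hr0s : (∑ i, (T i).coeff 0).coeff 0 = ∑ i, ((T i).coeff 0).coeff 0 := by
    simp
  rw [hr0s] at hk0 hkey hks
  have hle0 : ∑ i, ((T i).coeff 0).coeff 0 ≤ 2 * N - 1 := by exact_mod_cast hk0
  have hfr : (1 - 2 * |a|) ≤ (1 - |a|) / (1 + |a|) := by
    rw [le_div_iff₀ (by linarith)]
    nlinarith
  have hfr0 : 0 ≤ (1 - |a|) / (1 + |a|) := div_nonneg (by linarith) (by linarith)
  have h6 : ∑ i, (1 + (rk (supp (T i)) : ℝ)) ≤ ∑ i, pmn (a : ℂ) ((T i).coeff 0) :=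
    Finset.sum_le_sum fun i _ => hsn i
  set Sg : ℕ := ∑ i, (1 + rk (supp (T i))) with hSg
  have hSgR : ∑ i, (1 + (rk (supp (T i)) : ℝ)) = (Sg : ℝ) := by
    rw [hSg]; push_cast; rfl
  have hSgZ : ∑ i, (1 + (rk (supp (T i)) : ℤ)) = (Sg : ℤ) := by
    rw [hSg]; push_cast; rfl
  have hSgle : (Sg : ℤ) ≤ ∑ i, ((T i).coeff 0).coeff 0 := by
    rw [← hSgZ]
    exact Finset.sum_le_sum fun i _ => hc0 i
  rw [hSgR] at h6
  have h5 : (Module.finrank ℤ L : ℝ) ≤ 1 + (Sg : ℝ) := by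
    rw [← hSgR]
    exact_mod_cast hrank
  -- the singular part
  obtain ⟨mm, hmm⟩ := Int.le.dest hle0
  have hmmR : 2 * ((N : ℤ) : ℝ) - 1 - ((∑ i, ((T i).coeff 0).coeff 0 : ℤ) : ℝ) = (mm : ℝ) := by
    have h8 : (2 * N - 1 - ∑ i, ((T i).coeff 0).coeff 0 : ℤ) = (mm : ℤ) := by omega
    exact_mod_cast h8
  rw [hmmR] at hkey
  have hm0 : (0 : ℝ) ≤ (mm : ℝ) := Nat.cast_nonneg mm
  have h8 : 0 ≤ (1 - |a|) / (1 + |a|) * (mm : ℝ) := mul_nonneg hfr0 hm0
  refine ⟨by linarith, fun hlt => ?_, fun hz0 => ?_⟩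
  swap
  · have hs1 := hks hz0
    have hs2 : ∑ i, ((T i).coeff 0).coeff 0 < 2 * N - 1 := by exact_mod_cast hs1
    have hm1 : (1 : ℝ) ≤ (mm : ℝ) := by
      have : 1 ≤ mm := by omega
      exact_mod_cast this
    have h7 : (1 - |a|) / (1 + |a|) * 1 ≤ (1 - |a|) / (1 + |a|) * (mm : ℝ) :=
      mul_le_mul_of_nonneg_left hm1 hfr0
    linarith
  have hNpos : 0 ≤ N := by
    have : (0 : ℤ) ≤ (Sg : ℤ) := Int.natCast_nonneg _
    omega
  rw [← hNabs, abs_of_nonneg hNpos] at hlt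
  rcases Nat.lt_or_ge Sg (Module.finrank ℤ L) with hlt2 | hge
  · have hd : Module.finrank ℤ L = 1 + Sg := by omega
    have hdR : (Module.finrank ℤ L : ℝ) = 1 + (Sg : ℝ) := by rw [hd]; push_cast; rfl
    rcases Nat.eq_zero_or_pos mm with hm | hm
    · -- mm = 0
      have h7 : ∃ i, 2 + (rk (supp (T i)) : ℤ) ≤ ((T i).coeff 0).coeff 0 := by
        by_contra hno
        push Not at hno
        have h8 : ∑ i, ((T i).coeff 0).coeff 0 = ∑ i, (1 + (rk (supp (T i)) : ℤ)) := by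
          refine Finset.sum_congr rfl fun i _ => ?_
          have h9 := hno i
          have h10 := hc0 i
          omega
        rw [h8, hSgZ, hm] at hmm
        rw [hd] at hlt
        push_cast at hlt hmm
        omega
      obtain ⟨i, hi⟩ := h7
      have h8 := (hSnr (Ker (f i)) (T i) a ha (hT0 i) (hTn i)).2 hi
      have h9 : (Sg : ℝ) + (1 - 2 * |a|) ≤ ∑ j, pmn (a : ℂ) ((T j).coeff 0) := by
        rw [← hSgR, ← Finset.add_sum_erase Finset.univ _ (Finset.mem_univ i),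
          ← Finset.add_sum_erase Finset.univ (fun j => pmn (a : ℂ) ((T j).coeff 0)) (Finset.mem_univ i)]
        have h11 : ∑ j ∈ Finset.univ.erase i, (1 + (rk (supp (T j)) : ℝ)) ≤
            ∑ j ∈ Finset.univ.erase i, pmn (a : ℂ) ((T j).coeff 0) :=
          Finset.sum_le_sum fun j _ => hsn j
        linarith
      rw [hm, Nat.cast_zero, mul_zero] at hkey
      linarith
    · have hm1 : (1 : ℝ) ≤ (mm : ℝ) := by exact_mod_cast hm
      have h7 : (1 - |a|) / (1 + |a|) * 1 ≤ (1 - |a|) / (1 + |a|) * (mm : ℝ) :=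
        mul_le_mul_of_nonneg_left hm1 hfr0
      linarith
  · have h7 : (Module.finrank ℤ L : ℝ) ≤ (Sg : ℝ) := by exact_mod_cast hge
    linarith

/-- (E3VO) -/
theorem e3vo (hA : E3vaS) (hT : TrvoS) : E3voS := by
  intro P L _ _ _ _ _ phi D S i0 eta h c n G fd hMc hsn m q b hq hb hqf hvf hb1 hv2
  have hemb : ∀ x : ℤ, ‖(Coef.emb x : ℂ)‖ = ((|x| : ℤ) : ℝ) := fun x => by
    have h1 : (Coef.emb x : ℂ) = (x : ℂ) := by
      change (Int.castRingHom ℂ) _ = _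
      exact eq_intCast _ _
    rw [h1, Complex.norm_intCast, Int.cast_abs]
  obtain ⟨zb, D', b', e, hDD, hRb, hc0, -, hcl⟩ := hA ℤ P L phi D S i0 eta h c n G fd hMc hsn m q b
    hq hb hqf hvf (by
      rw [hemb, hemb, hb1]
      have : ((2 : ℤ) : ℝ) < ((|(q + b).coeff 0| : ℤ) : ℝ) := by exact_mod_cast hv2
      push_cast at this ⊢
      linarith)
  refine ⟨zb, fun a ha => ?_⟩
  obtain ⟨h1, h2, h3⟩ := hT P L phi D' b' e m q (-b) hDD fd.cc.two hRb (by rw [hc0, hq])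
    (by rw [hcl, hb, map_neg, mul_neg]) hqf (by
      intro s hs h0
      rw [Polynomial.map_neg, eval_neg, neg_eq_zero] at h0
      exact zb s hs h0) (by rw [coeff_neg, abs_neg, hb1]) a ha
  have e1 : (map (Coef.emb : ℤ →+* ℂ) (-b)) = -(map (Coef.emb : ℤ →+* ℂ) b) := Polynomial.map_neg _
  simp only [e1, eval_neg, div_neg, Complex.neg_re, mul_neg, neg_eq_zero] at h1 h2 h3
  exact ⟨h1, h2, h3⟩

/-- (O5) -/
theorem o5 (hE : E3voS) : O5S := by
  intro P L _ _ _ _ _ phi D S i0 eta h c n G fd hMc m q b j a hj hrk hq hb hqf hvf hb1 hq0 hv0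
    ha2 haj hval hsn
  have hj3 : (3 : ℝ) ≤ (j : ℝ) := by exact_mod_cast hj
  have ha0 : 0 < a := by
    by_contra hneg
    push Not at hneg
    nlinarith
  have habs : |a| = a := abs_of_pos ha0
  obtain ⟨-, h2⟩ := hE P L phi D S i0 eta h c n G fd hMc hsn m q b hq hb hqf hvf hb1 (by
    rw [hv0]; omega)
  obtain ⟨-, h4, -⟩ := h2 a (by rw [habs]; exact ha2)
  have h5 := h4 (by rw [hrk, hq0]; push_cast; omega)
  rw [hrk, habs] at h5
  push_cast at h5
  set X : ℝ := ((q.map (Coef.emb : ℤ →+* ℂ)).eval (a : ℂ) /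
    (b.map (Coef.emb : ℤ →+* ℂ)).eval (a : ℂ)).re with hX
  have hpos : 0 < a * (1 + a) := by positivity
  have h6 : (2 * (j : ℝ) + 1 - 2 * a) * (a * (1 + a)) ≤ 2 := by
    have h7 : (2 * (j : ℝ) + 1 - 2 * a) * (a * (1 + a)) ≤ -(2 * X) * (a * (1 + a)) :=
      mul_le_mul_of_nonneg_right h5 hpos.le
    have h8 : -(2 * X) * (a * (1 + a)) = 2 * (-X * (a * (1 + a))) := by ring
    rw [h8] at h7
    linarith
  rcases le_or_gt a (28 / 100) with hs | hs
  · have h9 : (0 : ℝ) ≤ a * (28 / 100 - a) := mul_nonneg ha0.le (by linarith)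
    nlinarith [mul_pos ha0 ha0, mul_nonneg ha0.le h9]
  · have h9 : (7 - 2 * a) * (a * (1 + a)) ≤ (2 * (j : ℝ) + 1 - 2 * a) * (a * (1 + a)) :=
      mul_le_mul_of_nonneg_right (by linarith) hpos.le
    nlinarith [mul_pos ha0 ha0, mul_nonneg ha0.le (sub_nonneg.mpr ha2)]

end Pool.Agent.B5.H67
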