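import Pool.Agent.Lib.MP_b5021c_nt.E.H29.Va
import Pool.Agent.Lib.MP_b5021c_nt.E.H67.Trvo

/-!
# MP_b5021c_nt, ALL THETA: the Poisson inequality for `2q/v - 1`, inequality version, and the row
T03 of class `V` in the case of equality (helper67)
-/

namespace Pool.Agent.B5.H67

open scoped LaurentPolynomial Topology ComplexConjugate
open Polynomial Metric Pool.Agent.B5 Pool.Agent.B5.H29

/-- (PAV) with an inequality on the circle. -/
theorem pavi (hfat : FatS) {q v r : ℂ[X]} {a : ℂ} (hq : ∀ z : ℂ, ‖z‖ ≤ 1 → q.eval z ≠ 0)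
    (hv : ∀ z : ℂ, ‖z‖ < 1 → v.eval z ≠ 0)
    (hle : ∀ z : ℂ, ‖z‖ = 1 → ‖v.eval z - q.eval z‖ ≤ ‖q.eval z‖) (ha : ‖a‖ < 1)
    (hr : ∀ z : ℂ, ‖z‖ = 1 → v.eval z ≠ 0 →
      (r.eval z).re ≤ 2 * (q.eval z / v.eval z).re - 1) :
    (r.eval a).re ≤ 2 * (q.eval a / v.eval a).re - 1 := by
  have hv0 : v ≠ 0 := by
    rintro rfl
    exact hv 0 (by simp) (by simp)
  have hfin : {z : ℂ | v.eval z = 0}.Finite := by
    have : {z : ℂ | v.eval z = 0} = (v.rootSet ℂ) := by
      ext z; simp [Polynomial.mem_rootSet, hv0]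
    rw [this]; exact v.rootSet_finite ℂ
  have hE : {w : ℂ | ‖w‖ = 1 ∧ v.eval (tau a w) = 0}.Finite := by
    refine (hfin.image fun x => (x - a) / (1 - conj a * x)).subset ?_
    rintro w ⟨hw, h0⟩
    exact ⟨tau a w, h0, (tau_inv ha hw.le).symm⟩
  obtain ⟨h1, h2⟩ := hfat (fun w => 2 * (q.eval (tau a w) / v.eval (tau a w)) - 1)
    (fun w => max (r.eval (tau a w)).re (2 * (q.eval (tau a w) / v.eval (tau a w)).re - 1)) _ hE (by
      intro w hw
      have hw' : ‖w‖ < 1 := by simpa using hw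
      have hd := tau_diff ha hw'.le
      exact ((((q.differentiable.differentiableAt).comp w hd).div
        ((v.differentiable.differentiableAt).comp w hd)
        (hv _ (tau_lt ha hw'))).const_mul 2 |>.sub_const 1).differentiableWithinAt)
    (fun w hw => re_ge (hv _ (tau_lt ha hw)) (mxp hq hle _ (tau_lt ha hw).le)) (by
      intro w hw hwE
      have hw0 : v.eval (tau a w) ≠ 0 := fun h => hwE ⟨hw, h⟩
      have hct : ContinuousAt (fun t : ℝ => tau a (t * w)) 1 := by
        have h1 : ContinuousAt (tau a) (((1 : ℝ) : ℂ) * w) := by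
          simpa using (tau_diff ha hw.le).continuousAt
        exact ContinuousAt.comp (f := fun t : ℝ => (t : ℂ) * w) h1 (by fun_prop)
      have hc : ContinuousAt (fun t : ℝ => (2 * (q.eval (tau a (t * w)) /
          v.eval (tau a (t * w))) - 1 : ℂ).re) 1 := by
        apply Complex.continuous_re.continuousAt.comp
        have h1 : ContinuousAt (fun t : ℝ => q.eval (tau a (t * w))) 1 :=
          q.continuous.continuousAt.comp hct
        have h2 : ContinuousAt (fun t : ℝ => v.eval (tau a (t * w))) 1 :=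
          v.continuous.continuousAt.comp hct
        exact (((h1.div h2 (by simpa using hw0)).const_mul 2).sub continuousAt_const)
      have ht := hc.tendsto
      simp only [Complex.ofReal_one, one_mul] at ht
      have e : (2 * (q.eval (tau a w) / v.eval (tau a w)) - 1 : ℂ).re =
          2 * (q.eval (tau a w) / v.eval (tau a w)).re - 1 := by
        simp
      have e2 : max (r.eval (tau a w)).re (2 * (q.eval (tau a w) / v.eval (tau a w)).re - 1) =
          2 * (q.eval (tau a w) / v.eval (tau a w)).re - 1 :=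
        max_eq_right (hr _ (tau_eq ha hw) hw0)
      rw [e] at ht
      rw [e2]
      exact ht.mono_left nhdsWithin_le_nhds)
  have hdc : DiffContOnCl ℂ (fun w => r.eval (tau a w)) (ball 0 |1|) := by
    have hcl : closure (ball (0 : ℂ) 1) = closedBall 0 1 := closure_ball 0 one_ne_zero
    rw [abs_one]
    constructor
    · intro w hw
      have hw' : ‖w‖ ≤ 1 := by simpa using (mem_ball.mp hw).le
      exact ((r.differentiable.differentiableAt).comp w (tau_diff ha hw')).differentiableWithinAt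
    · rw [hcl]
      intro w hw
      have hw' : ‖w‖ ≤ 1 := by simpa using hw
      exact ((r.differentiable.differentiableAt).comp w
        (tau_diff ha hw')).continuousAt.continuousWithinAt
  have h3 : Real.circleAverage (fun w => r.eval (tau a w)) 0 1 = r.eval a := by
    rw [hdc.circleAverage, tau_zero]
  have hint : CircleIntegrable (fun w => r.eval (tau a w)) 0 1 := by
    apply ContinuousOn.circleIntegrable zero_le_one
    intro w hw
    have hw' : ‖w‖ ≤ 1 := by simpa using (mem_sphere.mp hw).le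
    exact ((r.differentiable.differentiableAt).comp w
      (tau_diff ha hw')).continuousAt.continuousWithinAt
  have hintr : CircleIntegrable (fun w => (r.eval (tau a w)).re) 0 1 := by
    apply ContinuousOn.circleIntegrable zero_le_one
    intro w hw
    have hw' : ‖w‖ ≤ 1 := by simpa using (mem_sphere.mp hw).le
    exact (Complex.continuous_re.continuousAt.comp
      ((r.differentiable.differentiableAt).comp w
      (tau_diff ha hw')).continuousAt).continuousWithinAt
  have h4 : Real.circleAverage (fun w => (r.eval (tau a w)).re) 0 1 = (r.eval a).re := by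
    have := Complex.reCLM.circleAverage_comp_comm hint
    rw [h3] at this
    exact this
  have h5 : Real.circleAverage (fun w => (r.eval (tau a w)).re) 0 1 ≤
      Real.circleAverage (fun w => max (r.eval (tau a w)).re
        (2 * (q.eval (tau a w) / v.eval (tau a w)).re - 1)) 0 1 := by
    apply Real.circleAverage_mono hintr h1
    intro w _
    exact le_max_left _ _
  rw [h4] at h5
  have h6 := h5.trans h2
  simpa [tau_zero] using h6

/-- (T03) of class `V` over `ℤ` in the case `2 |b(0)| ≤ |(q + b)(0)|`, `b(-1) = 0`. -/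
theorem t03n (hNr : Nr3S) (hfat : FatS) (t : RO ℤ) (q b : ℤ[X]) (ht0 : t ≠ 0) (hnn : NnR t)
    (hq : ∀ z : ℂ, ‖z‖ ≤ 1 → (q.map Coef.emb).eval z ≠ 0) (hvz : ZF ((q + b).map Coef.emb))
    (hle : ∀ z : ℂ, ‖z‖ = 1 → ‖(b.map Coef.emb).eval z‖ ≤ ‖(q.map Coef.emb).eval z‖)
    (hyp : ∀ z : Circle, (evR z t).re * ‖((q + b).map Coef.emb).eval (z : ℂ)‖ ^ 2 ≤
      2 * ((q.map Coef.emb).eval (z : ℂ) *
        (starRingEnd ℂ) (((q + b).map Coef.emb).eval (z : ℂ))).re -
        ‖((q + b).map Coef.emb).eval (z : ℂ)‖ ^ 2)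
    (h3 : 2 * |b.coeff 0| ≤ |(q + b).coeff 0|) (hb1 : b.eval (-1) = 0) : t = 1 := by
  by_contra hne
  obtain ⟨-, hco, hor⟩ := hNr ℤ t ht0 hnn
  have hemb : ∀ x : ℤ, (Coef.emb x : ℂ) = (x : ℂ) := fun x => by
    change (Int.castRingHom ℂ) _ = _
    exact eq_intCast _ _
  have hembr : (Coef.emb : ℤ →+* ℂ) = Int.castRingHom ℂ := rfl
  have ht2 : 2 ≤ t.coeff 0 := by
    rcases hor with h | h
    · exact absurd h hne
    · rw [hemb, Complex.intCast_re] at h
      exact_mod_cast h
  obtain ⟨n, hre⟩ := H03.re_evR t (fun k hk => (hco k hk).2)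
  rw [hemb, Complex.intCast_re] at hre
  set tp : ℂ[X] := H03.tpl t n with htp
  set qc : ℂ[X] := q.map (Coef.emb : ℤ →+* ℂ) with hqcdef
  set bc : ℂ[X] := b.map (Coef.emb : ℤ →+* ℂ) with hbcdef
  set vc : ℂ[X] := (q + b).map (Coef.emb : ℤ →+* ℂ) with hvcdef
  have hvc : vc = qc + bc := by rw [hvcdef, Polynomial.map_add]
  set r : ℂ[X] := C ((t.coeff 0 : ℤ) : ℂ) + C 2 * tp with hr
  have hre2 : ∀ s : ℂ, (r.eval s).re = ((t.coeff 0 : ℤ) : ℝ) + 2 * (tp.eval s).re := by
    intro s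
    rw [hr]
    simp only [eval_add, eval_mul, eval_C, Complex.add_re, Complex.intCast_re]
    simp
  have hlev : ∀ z : ℂ, ‖z‖ = 1 → ‖vc.eval z - qc.eval z‖ ≤ ‖qc.eval z‖ := by
    intro z hz
    rw [hvc, eval_add, add_sub_cancel_left]
    exact hle z hz
  have hcirc : ∀ z : ℂ, ‖z‖ = 1 → vc.eval z ≠ 0 →
      (r.eval z).re ≤ 2 * (qc.eval z / vc.eval z).re - 1 := by
    intro z hz hz0
    obtain ⟨w, rfl⟩ : ∃ w : Circle, (w : ℂ) = z := ⟨⟨z, mem_sphere_zero_iff_norm.mpr hz⟩, rfl⟩
    have h1 := hyp w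
    rw [hre w, ← hre2] at h1
    have hp : 0 < ‖vc.eval (w : ℂ)‖ ^ 2 := pow_pos (norm_pos_iff.mpr hz0) 2
    have h2 : (qc.eval (w : ℂ) / vc.eval (w : ℂ)).re =
        (qc.eval (w : ℂ) * (starRingEnd ℂ) (vc.eval (w : ℂ))).re / ‖vc.eval (w : ℂ)‖ ^ 2 := by
      rw [← Complex.normSq_eq_norm_sq, Complex.div_re, Complex.mul_re, Complex.conj_re,
        Complex.conj_im]
      have : Complex.normSq (vc.eval (w : ℂ)) ≠ 0 := (Complex.normSq_pos.mpr hz0).ne'
      field_simp
      ring
    rw [h2]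
    rw [← mul_le_mul_iff_left₀ hp]
    calc (r.eval (w : ℂ)).re * ‖vc.eval (w : ℂ)‖ ^ 2 ≤ _ := h1
      _ = _ := by
        rw [sub_mul, one_mul, mul_assoc, div_mul_cancel₀ _ hp.ne']
  have hP : ∀ z : ℂ, ‖z‖ < 1 → (r.eval z).re ≤ 2 * (qc.eval z / vc.eval z).re - 1 :=
    fun z hz => pavi hfat hq hvz hlev hz hcirc
  -- the function `W`
  have hd : DifferentiableOn ℂ (fun z : ℂ => 2 * (qc.eval z / vc.eval z) - 1 - r.eval z)
      (Metric.ball 0 1) := by
    intro w hw
    have hw' : ‖w‖ < 1 := by simpa using hw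
    exact ((((qc.differentiable.differentiableAt.div vc.differentiable.differentiableAt
      (hvz w hw')).const_mul 2).sub_const 1).sub
        r.differentiable.differentiableAt).differentiableWithinAt
  have e : ∀ z : ℂ, (2 * (qc.eval z / vc.eval z) - 1 - r.eval z).re =
      2 * (qc.eval z / vc.eval z).re - 1 - (r.eval z).re := by
    intro z
    rw [Complex.sub_re, Complex.sub_re, Complex.one_re,
      show (2 : ℂ) * (qc.eval z / vc.eval z) = ((2 : ℝ) : ℂ) * (qc.eval z / vc.eval z) by norm_num,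
      Complex.re_ofReal_mul]
  -- the value at zero
  have hv0 : vc.eval 0 = (((q + b).coeff 0 : ℤ) : ℂ) := by
    rw [← coeff_zero_eq_eval_zero, hvcdef, coeff_map, hemb]
  have hq0 : qc.eval 0 = (((q + b).coeff 0 : ℤ) : ℂ) - ((b.coeff 0 : ℤ) : ℂ) := by
    rw [← coeff_zero_eq_eval_zero, hqcdef, coeff_map, hemb, coeff_add]
    push_cast
    ring
  have hvne : (((q + b).coeff 0 : ℤ) : ℂ) ≠ 0 := by
    rw [← hv0]
    exact hvz 0 (by simp)
  have hvneR : (((q + b).coeff 0 : ℤ) : ℝ) ≠ 0 := by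
    have h1 : (q + b).coeff 0 ≠ 0 := fun h => hvne (by rw [h]; simp)
    exact_mod_cast h1
  have hF0 : 2 * (qc.eval 0 / vc.eval 0) - 1 - r.eval 0 =
      ((1 - 2 * ((b.coeff 0 : ℤ) : ℝ) / (((q + b).coeff 0 : ℤ) : ℝ) - ((t.coeff 0 : ℤ) : ℝ) : ℝ) : ℂ) := by
    have h6 : tp.eval 0 = 0 := by
      rw [← coeff_zero_eq_eval_zero, htp, H03.tpl_coeff_zero]
    rw [hq0, hv0, hr, eval_add, eval_mul, eval_C, eval_C, h6]
    push_cast
    field_simp
    ring
  have hbv : -(2 * ((b.coeff 0 : ℤ) : ℝ) / (((q + b).coeff 0 : ℤ) : ℝ)) ≤ 1 := by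
    have h1 : |(2 * ((b.coeff 0 : ℤ) : ℝ) / (((q + b).coeff 0 : ℤ) : ℝ))| ≤ 1 := by
      rw [abs_div, div_le_one (abs_pos.mpr hvneR), abs_mul, abs_two]
      exact_mod_cast h3
    have h2 := (abs_le.mp h1).1
    linarith
  have ht2R : (2 : ℝ) ≤ ((t.coeff 0 : ℤ) : ℝ) := by exact_mod_cast ht2
  have hc := cst_re hd (fun z hz => by rw [e]; linarith [hP z hz]) (by
    rw [hF0, Complex.ofReal_re]
    linarith)
  have hWr0 : 0 ≤ (1 - 2 * ((b.coeff 0 : ℤ) : ℝ) / (((q + b).coeff 0 : ℤ) : ℝ) -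
      ((t.coeff 0 : ℤ) : ℝ)) := by
    have h1 := hP 0 (by simp)
    have h2 := congrArg Complex.re hF0
    rw [e, Complex.ofReal_re] at h2
    linarith
  have hW0 : 2 * (qc.eval 0 / vc.eval 0) - 1 - r.eval 0 = 0 := by
    rw [hF0]
    have h1 : (1 - 2 * ((b.coeff 0 : ℤ) : ℝ) / (((q + b).coeff 0 : ℤ) : ℝ) -
      ((t.coeff 0 : ℤ) : ℝ)) = 0 := by linarith
    rw [h1, Complex.ofReal_zero]
  have ht02 : t.coeff 0 = 2 := by
    have h1 : ((t.coeff 0 : ℤ) : ℝ) ≤ 2 := by linarith
    have h2 : t.coeff 0 ≤ 2 := by exact_mod_cast h1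
    omega
  -- the polynomial identity
  have hPol : C 2 * qc - vc - r * vc = 0 := by
    apply Polynomial.eq_zero_of_infinite_isRoot
    refine Set.Infinite.mono (s := Metric.ball (0 : ℂ) 1) ?_ ?_
    · intro z hz
      have hz' : ‖z‖ < 1 := by simpa using hz
      have h3 := hc z hz'
      rw [hW0] at h3
      have h4 := hvz z hz'
      rw [Set.mem_ofPred_eq, Polynomial.IsRoot.def]
      simp only [eval_sub, eval_mul, eval_C]
      have h5 : 2 * (qc.eval z / vc.eval z) = 1 + r.eval z := by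
        linear_combination h3
      have h6 : 2 * qc.eval z = (1 + r.eval z) * vc.eval z := by
        rw [← h5, mul_assoc, div_mul_cancel₀ _ h4]
      linear_combination h6
    · exact infinite_of_mem_nhds (0 : ℂ) (Metric.ball_mem_nhds 0 one_pos)
  -- the value at `-1`
  have hbc1 : bc.eval (-1) = 0 := by
    have h1 : bc.eval (((-1 : ℤ) : ℂ)) = ((b.eval (-1) : ℤ) : ℂ) := by
      rw [hbcdef, hembr, eval_intCast_map]
      rfl
    rw [hb1] at h1
    simpa using h1
  have hqv1 : vc.eval (-1) = qc.eval (-1) := by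
    rw [hvc, eval_add, hbc1, add_zero]
  have hq1 : qc.eval (-1) ≠ 0 := hq (-1) (by simp)
  have htp1 : ∃ k : ℤ, tp.eval (-1) = (k : ℂ) := by
    refine ⟨∑ k ∈ Finset.range n, t.coeff ((k : ℤ) + 1) * (-1) ^ (k + 1), ?_⟩
    rw [htp, H03.tpl_eval]
    push_cast
    refine Finset.sum_congr rfl fun k _ => ?_
    rw [hemb]
  obtain ⟨k, hk⟩ := htp1
  have h7 := congrArg (fun p : ℂ[X] => p.eval (-1)) hPol
  simp only [eval_sub, eval_mul, eval_C, eval_zero] at h7
  rw [hqv1, hr] at h7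
  simp only [eval_add, eval_mul, eval_C] at h7
  rw [hk, ht02] at h7
  have h8 : ((1 - (2 + 2 * k) : ℤ) : ℂ) * qc.eval (-1) = 0 := by
    push_cast
    linear_combination h7
  rcases mul_eq_zero.mp h8 with h | h
  · have h9 : (1 - (2 + 2 * k) : ℤ) = 0 := by exact_mod_cast h
    omega
  · exact hq1 h

end Pool.Agent.B5.H67
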