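import Pool.Agent.Lib.MP_b5021c_nt.E.H29.Vb
import Pool.Agent.Lib.MP_b5021c_nt.E.H67.Pavi

/-!
# MP_b5021c_nt, ALL THETA, row O5 for all `j ≥ 2` (helper67)

No small non-pure factor at a load of `G ∈ V(j+1)` of rank `2j` into class `V(j)` with
`|b(0)| = 1`, `b(-1) = 0`, `-G_0(a)/b(a) ≤ 1/(a(1+a))`, `1/(j+1) < a ≤ 1/2`.
-/

namespace Pool.Agent.B5.H67

open Polynomial Metric Pool.Agent.B5 Pool.Agent.B5.H71 Pool.Agent.B5.H96 Pool.Agent.B5.H29
open scoped Topology ComplexConjugate LaurentPolynomial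
open Pool.Agent.MP_b5021c_nt (nz)

set_option linter.unusedSectionVars false

/-- (E3VG) E3 for class `V` with a general hypothesis on the constant coefficient of `tau`. -/
def E3vgS : Prop := ∀ (O : Type) [CommRing O] [IsDomain O] [IsPrincipalIdealRing O] [Coef O]
  (P L : Type) [Fintype P] [DecidableEq P] [AddCommGroup L] [Module.Free ℤ L]
  [Module.Finite ℤ L] (phi : L →+ (P → ℤ)) (D : AO O L) (S : L) (i0 : P) (eta : (RO O)ˣ)
  (h : co phi i0 S = 1) (c : RO O) (n : ℕ) (G : Fin n → AO O (Ker (co phi i0))),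
    FD phi D S i0 eta h c n G → M c = 1 → (snp phi S i0 G).Nonempty →
    ∀ (m : ℤ) (q b : O[X]), D.coeff 0 = LaurentPolynomial.T m * toLaurent q →
      (eta : RO O) * D.coeff S = LaurentPolynomial.T m * toLaurent b →
      ZF (q.map Coef.emb) → ZF ((q + b).map Coef.emb) → q + b + b ≠ 0 →
      (∀ t : RO O, t ≠ 0 → NnR t → (∀ z : ℂ, ‖z‖ ≤ 1 → (q.map Coef.emb).eval z ≠ 0) →
        (∀ z : ℂ, ‖z‖ = 1 → ‖(b.map Coef.emb).eval z‖ ≤ ‖(q.map Coef.emb).eval z‖) →
        (∀ z : Circle, (evR z t).re * ‖((q + b).map Coef.emb).eval (z : ℂ)‖ ^ 2 ≤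
          2 * ((q.map Coef.emb).eval (z : ℂ) *
            (starRingEnd ℂ) (((q + b).map Coef.emb).eval (z : ℂ))).re -
            ‖((q + b).map Coef.emb).eval (z : ℂ)‖ ^ 2) → t = 1) →
        ZF (b.map Coef.emb) ∧ ∃ (D' : AO O L) (b' : L) (e : (RO O)ˣ), DD phi D' ∧ Ray D' b' ∧
          D'.coeff 0 = D.coeff 0 ∧
          (e : RO O) * D'.coeff b' = -(D.coeff 0 + (eta : RO O) * D.coeff S) ∧
          D'.coeff 0 + (e : RO O) * D'.coeff b' = -((eta : RO O) * D.coeff S)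

/-- (O5) for all `j ≥ 2`. -/
def O5aS : Prop := ∀ (P L : Type) [Fintype P] [DecidableEq P] [AddCommGroup L] [Module.Free ℤ L]
  [Module.Finite ℤ L] (phi : L →+ (P → ℤ)) (D : AO ℤ L) (S : L) (i0 : P) (eta : (RO ℤ)ˣ)
  (h : co phi i0 S = 1) (c : RO ℤ) (n : ℕ) (G : Fin n → AO ℤ (Ker (co phi i0))),
    FD phi D S i0 eta h c n G → M c = 1 →
    ∀ (m : ℤ) (q b : ℤ[X]) (j : ℕ) (a : ℝ), 2 ≤ j → Module.finrank ℤ L = 2 * j →
      D.coeff 0 = LaurentPolynomial.T m * toLaurent q →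
      (eta : RO ℤ) * D.coeff S = LaurentPolynomial.T m * toLaurent b →
      ZF (q.map Coef.emb) → ZF ((q + b).map Coef.emb) → |b.coeff 0| = 1 →
      |q.coeff 0| = j + 1 → |(q + b).coeff 0| = j → b.eval (-1) = 0 →
      a ≤ 1 / 2 → 1 < ((j : ℝ) + 1) * a →
      -((q.map Coef.emb).eval (a : ℂ) / (b.map Coef.emb).eval (a : ℂ)).re * (a * (1 + a)) ≤ 1 →
        ¬ (snp phi S i0 G).Nonempty

/-- Row E3VG (copy of helper29's proof of E3VA). -/
theorem e3vg (hQc : Qc3S) (hE2 : E2S) (hNd : Nd3vS) (hDv : Dv3S) (hQm : Qm3S) 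
    (hTa : Ta3S) (hUm : Um3vS) (hSt : St3S) (hSw : Sw3S) (hEv : EvRS)
    (hZ : ZfinS) (hNn : Nn3S) : E3vgS := by
  intro O _ _ _ _ P L _ _ _ _ _ phi D S i0 eta h c n G fd hMc hsn m q f hq hf hqf hvf hne0 hT0
  obtain ⟨l, b, j, e, hj, Q, hQ⟩ := hQc O P L phi D S i0 eta h c n G fd hsn
  obtain ⟨d0, -, -, -, -, edge⟩ := hE2 O P L phi D fd.cc.dd fd.cc.two
  have eS := (edge S fd.cc.ray).1
  set g : RO O := c * (G l).coeff 0 with hg
  have hg0 : g ≠ 0 := mul_ne_zero fd.c0 hQ.sp.u0.ne_zero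
  set v : O[X] := q + f with hv
  have hV : D.coeff 0 + (eta : RO O) * D.coeff S = LaurentPolynomial.T m * toLaurent v := by
    rw [hq, hf, hv, map_add, mul_add]
  have hSD : D.coeff S ≠ 0 := fd.cc.ray.1
  have hS0 : (eta : RO O) * D.coeff S ≠ 0 := mul_ne_zero eta.ne_zero hSD
  have hv0 : v ≠ 0 := T_mul_ne (m := m) (by rw [← hV]; exact fd.cc.v0)
  have hf0 : f ≠ 0 := T_mul_ne (m := m) (by rw [← hf]; exact hS0)
  have hvm : v.map (Coef.emb : O →+* ℂ) ≠ 0 := by
    rw [Ne, Polynomial.map_eq_zero_iff emb_inj]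
    exact hv0
  have hfm : f.map (Coef.emb : O →+* ℂ) ≠ 0 := by
    rw [Ne, Polynomial.map_eq_zero_iff emb_inj]
    exact hf0
  have hvmap : v.map (Coef.emb : O →+* ℂ) = q.map (Coef.emb : O →+* ℂ) +
      f.map (Coef.emb : O →+* ℂ) := by
    rw [hv, Polynomial.map_add]
  -- values on the circle
  have evD : ∀ z : Circle, evR z (D.coeff 0) =
      (z : ℂ) ^ m * (q.map (Coef.emb : O →+* ℂ)).eval (z : ℂ) := by
    intro z
    rw [hq, ev_T_mul]
  have evS : ∀ z : Circle, evR z ((eta : RO O) * D.coeff S) =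
      (z : ℂ) ^ m * (f.map (Coef.emb : O →+* ℂ)).eval (z : ℂ) := by
    intro z
    rw [hf, ev_T_mul]
  have qz1 : ∀ z : ℂ, ‖z‖ = 1 → (q.map (Coef.emb : O →+* ℂ)).eval z ≠ 0 := by
    intro z hz
    obtain ⟨w, rfl⟩ := H93.exists_circle hz
    have h1 := d0 w
    rw [evD w] at h1
    exact right_ne_zero_of_mul h1
  have qz : ∀ z : ℂ, ‖z‖ ≤ 1 → (q.map (Coef.emb : O →+* ℂ)).eval z ≠ 0 := by
    intro z hz
    rcases hz.lt_or_eq with h1 | h1
    · exact hqf z h1
    · exact qz1 z h1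
  have le1 : ∀ z : ℂ, ‖z‖ = 1 → ‖(f.map (Coef.emb : O →+* ℂ)).eval z‖ ≤
      ‖(q.map (Coef.emb : O →+* ℂ)).eval z‖ := by
    intro z hz
    obtain ⟨w, rfl⟩ := H93.exists_circle hz
    have h1 := eS w
    have h2 : ‖evR w ((eta : RO O) * D.coeff S)‖ = ‖evR w (D.coeff S)‖ := by
      rw [map_mul, norm_mul, (hEv O).2.1 w _ eta.isUnit, one_mul]
    rw [← h2, evS w, evD w, norm_mul, norm_mul, norm_circle, one_mul, one_mul] at h1
    exact h1
  have veval : ∀ z : ℂ, (v.map (Coef.emb : O →+* ℂ)).eval z =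
      (q.map (Coef.emb : O →+* ℂ)).eval z + (f.map (Coef.emb : O →+* ℂ)).eval z := by
    intro z
    rw [hv, Polynomial.map_add, eval_add]
  have re1 : ∀ z : ℂ, ‖z‖ = 1 → 0 ≤ ((v.map (Coef.emb : O →+* ℂ)).eval z *
      (starRingEnd ℂ) ((q.map (Coef.emb : O →+* ℂ)).eval z)).re := by
    intro z hz
    rw [veval z, add_mul, Complex.add_re, Complex.mul_conj, Complex.normSq_eq_norm_sq,
      Complex.ofReal_re]
    have h1 := le1 z hz
    have h2 := Complex.abs_re_le_norm ((f.map (Coef.emb : O →+* ℂ)).eval z *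
      (starRingEnd ℂ) ((q.map (Coef.emb : O →+* ℂ)).eval z))
    rw [norm_mul, Complex.norm_conj] at h2
    have h3 := (abs_le.mp h2).1
    have h4 := norm_nonneg ((q.map (Coef.emb : O →+* ℂ)).eval z)
    nlinarith
  have nod : ∀ z0 : ℂ, ‖z0‖ = 1 → ¬ (X - C z0) ^ 2 ∣ v.map (Coef.emb : O →+* ℂ) := by
    intro z0 hz0
    exact hNd (q.map (Coef.emb : O →+* ℂ)) (v.map (Coef.emb : O →+* ℂ)) z0 qz re1 hvm hz0
  -- `g` divides `Q`
  obtain ⟨F, hF, hFn⟩ := hDv O P L phi D S i0 eta h c n G l b j e hj Q hQ hMc m v hV nod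
  have hF0 : F ≠ 0 := by
    rintro rfl
    apply hQ.q0
    rw [hF, mul_zero]
  -- `F` is selfreciprocal
  have hsF : F = sharp F := by
    have hFg : Q = cst g * F := hF
    have h1 : Q * cst (rsh g) = sharp Q * cst g := hQ.rq
    have cs : ∀ a : RO O, sharp (cst a : AO O (Ker (co (phK phi (co phi i0)) j))) =
        cst (rsh a) := by
      intro a
      rw [cst, sharp_single, neg_zero]
      rfl
    have h0 : sharp (cst g * F) = cst (rsh g) * sharp F := by rw [map_mul, cs]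
    rw [hFg, h0] at h1
    have hgc : (cst g : AO O (Ker (co (phK phi (co phi i0)) j))) ≠ 0 := by
      rw [cst]
      exact AddMonoidAlgebra.single_ne_zero.mpr hg0
    have hgr : (cst (rsh g) : AO O (Ker (co (phK phi (co phi i0)) j))) ≠ 0 := by
      rw [cst]
      exact AddMonoidAlgebra.single_ne_zero.mpr (rsh_ne hEv hZ g hg0)
    have h2 : (cst g * cst (rsh g)) * F = (cst g * cst (rsh g)) * sharp F := by
      linear_combination h1
    exact mul_left_cancel₀ (mul_ne_zero hgc hgr) h2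
  set t : RO O := F.coeff 0 with ht
  have trsh : rsh t = t := by
    have h1 := congrArg (fun E : AO O (Ker (co (phK phi (co phi i0)) j)) => E.coeff 0) hsF
    simp only [sharp_coeff', neg_zero] at h1
    exact h1.symm
  have tim : ∀ z : Circle, (evR z t).im = 0 := by
    intro z
    have h1 := (hEv O).2.2.1 z t
    rw [trsh] at h1
    exact Complex.conj_eq_iff_im.mp h1.symm
  have FnC : ∀ z : Circle, spec z F ≠ 0 → 0 < (evR z t).re := by
    intro z hz
    have h1 := (hNn _ (spec z F) hz (fun u => hFn z u)).1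
    rw [spec_coeff] at h1
    exact h1
  have tnn : NnR t := by
    intro z
    refine ⟨tim z, ?_⟩
    by_cases h1 : spec z F = 0
    · have h2 : evR z t = 0 := by
        rw [ht, ← spec_coeff, h1]
        rfl
      rw [h2]
      exact le_refl _
    · exact (FnC z h1).le
  have tne : t ≠ 0 := by
    intro h0
    have hex : ∃ a, F.coeff a ≠ 0 := by
      by_contra hcon
      apply hF0
      apply AddMonoidAlgebra.coeff_injective
      apply Finsupp.ext
      intro a
      by_contra h1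
      exact hcon ⟨a, h1⟩
    obtain ⟨a, ha⟩ := hex
    have hex2 : ∃ z : Circle, evR z (F.coeff a) ≠ 0 := by
      by_contra hcon
      apply ha
      apply evR_zero hZ
      intro z
      by_contra h1
      exact hcon ⟨z, h1⟩
    obtain ⟨z, hz⟩ := hex2
    have h1 : spec z F ≠ 0 := by
      intro h2
      apply hz
      rw [← spec_coeff, h2]
      rfl
    have h3 := FnC z h1
    rw [h0, map_zero] at h3
    exact lt_irrefl _ h3
  -- the inequality for the constant coefficients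
  have hcont : ∀ p : RO O, Continuous fun z : Circle => evR z p := (hEv O).2.2.2
  have hineq : ∀ z : Circle, (evR z t).re * ‖evR z (D.coeff 0 + (eta : RO O) * D.coeff S)‖ ^ 2 ≤
      2 * (evR z (D.coeff 0) *
          (starRingEnd ℂ) (evR z (D.coeff 0 + (eta : RO O) * D.coeff S))).re -
        ‖evR z (D.coeff 0 + (eta : RO O) * D.coeff S)‖ ^ 2 := by
    apply le_of_dense hZ g hg0
    · exact (Complex.continuous_re.comp (hcont t)).mul ((hcont _).norm.pow 2)
    · exact (continuous_const.mul (Complex.continuous_re.comp ((hcont _).mul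
        (Complex.continuous_conj.comp (hcont _))))).sub ((hcont _).norm.pow 2)
    · intro z hz
      have h1 := hQm O P L phi D S i0 eta h c n G l b j e hj Q hQ z
      have h2 : Q.coeff 0 = g * t := by
        rw [hF, cst_mul_coeff]
      rw [h2, ← hg] at h1
      have h3 : (evR z (g * t) * (starRingEnd ℂ) (evR z g)).re = ‖evR z g‖ ^ 2 * (evR z t).re := by
        have h4 : evR z (g * t) * (starRingEnd ℂ) (evR z g) =
            ((‖evR z g‖ ^ 2 : ℝ) : ℂ) * evR z t := by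
          rw [map_mul, mul_comm (evR z g), mul_assoc, Complex.mul_conj,
            Complex.normSq_eq_norm_sq, mul_comm]
        rw [h4, Complex.re_ofReal_mul]
      rw [h3] at h1
      have h5 : 0 < ‖evR z g‖ ^ 2 := pow_pos (norm_pos_iff.mpr hz) 2
      have h6 : ‖evR z g‖ ^ 2 * ((evR z t).re *
          ‖evR z (D.coeff 0 + (eta : RO O) * D.coeff S)‖ ^ 2) ≤ ‖evR z g‖ ^ 2 *
          (2 * (evR z (D.coeff 0) *
          (starRingEnd ℂ) (evR z (D.coeff 0 + (eta : RO O) * D.coeff S))).re -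
        ‖evR z (D.coeff 0 + (eta : RO O) * D.coeff S)‖ ^ 2) := by
        linarith
      exact le_of_mul_le_mul_left h6 h5
  have hineq' : ∀ z : Circle, (evR z t).re * ‖(v.map (Coef.emb : O →+* ℂ)).eval (z : ℂ)‖ ^ 2 ≤
      2 * ((q.map (Coef.emb : O →+* ℂ)).eval (z : ℂ) *
        (starRingEnd ℂ) ((v.map (Coef.emb : O →+* ℂ)).eval (z : ℂ))).re -
        ‖(v.map (Coef.emb : O →+* ℂ)).eval (z : ℂ)‖ ^ 2 := by
    intro z
    have h1 := hineq z
    rw [hV, hq, ev_T_mul, ev_T_mul, circ_mul_conj, norm_mul, norm_circle, one_mul] at h1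
    exact h1
  have t1 : t = 1 := hT0 t tne tnn qz le1 hineq'
  have F1 : F = 1 := hTa O _ F hFn t1
  have Qg : Q = cst g := by rw [hF, F1, mul_one]
  -- `f` is zero-free
  have zf : ZF (f.map (Coef.emb : O →+* ℂ)) := by
    apply hUm (q.map (Coef.emb : O →+* ℂ)) (f.map (Coef.emb : O →+* ℂ)) qz hfm
    intro z hz
    obtain ⟨w, rfl⟩ := H93.exists_circle hz
    have h1 := hineq' w
    rw [t1, map_one, Complex.one_re, one_mul] at h1
    rw [← hvmap]
    linarith
  -- the normal form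
  have hne : D.coeff 0 + 2 * ((eta : RO O) * D.coeff S) ≠ 0 := by
    have h1 : D.coeff 0 + 2 * ((eta : RO O) * D.coeff S) =
        LaurentPolynomial.T m * toLaurent (q + f + f) := by
      rw [hq, hf, map_add, map_add]
      ring
    rw [h1]
    apply T_mul_ne'
    exact hne0
  obtain ⟨U, H, pf, hU0, hH0⟩ := hSt O P L phi D S i0 eta h c n G l b j e hj Q hQ Qg hne
  obtain ⟨hDD, hRb, -, hc0, hcb, -⟩ := hSw O P L phi D S (b : L) eta e U H fd.cc.dd pf d0
  refine ⟨zf, swp S (b : L) eta e U H, (b : L), e, hDD, hRb, hc0, ?_, ?_⟩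
  · rw [hcb, hU0]
  · rw [hc0, hcb, hU0]
    ring

/-- (O5) for all `j ≥ 2`. -/
theorem o5a (hG : E3vgS) (hT : TrvoS) (hNr : Nr3S) (hfat : FatS) : O5aS := by
  intro P L _ _ _ _ _ phi D S i0 eta h c n G fd hMc m q b j a hj hrk hq hb hqf hvf hb1 hq0 hv0
    hbm ha2 haj hval hsn
  have hj2 : (2 : ℝ) ≤ (j : ℝ) := by exact_mod_cast hj
  have ha0 : 0 < a := by
    by_contra hneg
    push Not at hneg
    nlinarith
  have habs : |a| = a := abs_of_pos ha0
  have hne : q + b + b ≠ 0 := by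
    intro h0
    have h1 := congrArg (fun p : ℤ[X] => p.coeff 0) h0
    simp only [coeff_add, coeff_zero] at h1
    have h2 : q.coeff 0 = -(2 * b.coeff 0) := by linarith
    have h3 : |q.coeff 0| = 2 * |b.coeff 0| := by rw [h2, abs_neg, abs_mul, abs_two]
    rw [hq0, hb1] at h3
    omega
  obtain ⟨zb, D', b', e, hDD, hRb, hc0, -, hcl⟩ := hG ℤ P L phi D S i0 eta h c n G fd hMc hsn m q b
    hq hb hqf hvf hne (fun t ht0 hnn hqz hle hyp => t03n hNr hfat t q b ht0 hnn hqz hvf hle hyp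
      (by rw [hb1, hv0]; omega) hbm)
  have hembr : (Coef.emb : ℤ →+* ℂ) = Int.castRingHom ℂ := rfl
  have hbc1 : (b.map (Coef.emb : ℤ →+* ℂ)).eval (-1) = 0 := by
    have h1 : (b.map (Coef.emb : ℤ →+* ℂ)).eval (((-1 : ℤ) : ℂ)) = ((b.eval (-1) : ℤ) : ℂ) := by
      rw [hembr, eval_intCast_map]
      rfl
    rw [hbm] at h1
    simpa using h1
  have e1 : (map (Coef.emb : ℤ →+* ℂ) (-b)) = -(map (Coef.emb : ℤ →+* ℂ) b) :=
    Polynomial.map_neg _
  obtain ⟨-, -, h3⟩ := hT P L phi D' b' e m q (-b) hDD fd.cc.two hRb (by rw [hc0, hq])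
    (by rw [hcl, hb, map_neg, mul_neg]) hqf (by
      intro s hs h0
      rw [Polynomial.map_neg, eval_neg, neg_eq_zero] at h0
      exact zb s hs h0) (by rw [coeff_neg, abs_neg, hb1]) a (by rw [habs]; exact ha2)
  have h4 := h3 ⟨-1, by simp, by rw [e1, eval_neg, hbc1, neg_zero]⟩
  rw [e1, eval_neg, div_neg, Complex.neg_re, habs, hrk] at h4
  push_cast at h4
  set Y : ℝ := ((q.map (Coef.emb : ℤ →+* ℂ)).eval (a : ℂ) /
    (b.map (Coef.emb : ℤ →+* ℂ)).eval (a : ℂ)).re with hY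
  have hpos : 0 < a * (1 + a) := by positivity
  have h6 : 2 * (j : ℝ) * (a * (1 + a)) + a * (1 - a) ≤ 2 := by
    have h7 : (2 * (j : ℝ) + (1 - a) / (1 + a)) * (a * (1 + a)) ≤ 2 * -Y * (a * (1 + a)) :=
      mul_le_mul_of_nonneg_right h4 hpos.le
    have h8 : (2 * (j : ℝ) + (1 - a) / (1 + a)) * (a * (1 + a)) =
        2 * (j : ℝ) * (a * (1 + a)) + a * (1 - a) := by
      field_simp
    rw [h8] at h7
    linarith
  rcases le_or_gt a (1 / 3) with hs | hs
  · have h9 : (0 : ℝ) ≤ a * (1 / 3 - a) := mul_nonneg ha0.le (by linarith)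
    nlinarith [mul_pos ha0 ha0, mul_lt_mul_of_pos_right haj (by linarith : 0 < 1 + a)]
  · have h9 : 4 * (a * (1 + a)) ≤ 2 * (j : ℝ) * (a * (1 + a)) :=
      mul_le_mul_of_nonneg_right (by linarith) hpos.le
    nlinarith [mul_pos ha0 ha0]

end Pool.Agent.B5.H67
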