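import Pool.Agent.Lib.MP_b5021c_nt.IfaceE6
import Pool.Agent.Lib.MP_b5021c_nt.K.H31.Clo
import Pool.Agent.Lib.MP_b5021c_nt.K.H29.Fdc
import Pool.Agent.Lib.MP_b5021c_nt.E.H56.T2o
import Pool.Agent.Lib.MP_b5021c_nt.E.H78.Zfa

/-!
# MP_b5021c_nt, ALL THETA: one factor in a closing which has a ray with unit lowest coefficient
-/

namespace Pool.Agent.B5.H67

open scoped LaurentPolynomial
open Polynomial Pool.Agent.B5 Pool.Agent.B5.Clo

/-- The coefficient of a product with binary exponents at an exponent of one factor. -/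
theorem coeff_disj (hW : WWfS) {O : Type} [CommRing O] [IsDomain O] [IsPrincipalIdealRing O]
    [Coef O] {P L : Type} [Fintype P] [DecidableEq P] [AddCommGroup L] [Module.Free ℤ L]
    [Module.Finite ℤ L] (phi : L →+ (P → ℤ)) (inj : Function.Injective phi) (G H : AO O L)
    (bin : ∀ a ∈ supp (G * H), Bin phi a) (hG : G.coeff 0 ≠ 0) (hH : H.coeff 0 ≠ 0) (T : L)
    (hT : T ∈ supp G) : (G * H).coeff T = G.coeff T * H.coeff 0 := by
  classical
  have hw : ∀ a ∈ supp (G * H), WW phi ∅ Finset.univ a := by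
    intro a ha
    refine ⟨fun j _ => bin a ha j, Or.inl fun i hi => absurd hi (Finset.notMem_empty i),
      fun j _ hj => absurd (Finset.mem_univ j) hj⟩
  obtain ⟨-, hj⟩ := hW O P L phi ∅ Finset.univ G H hw hG hH
  have hu : UniqueAdd G.coeff.support H.coeff.support T 0 := by
    intro a b ha hb hab
    have ha' : a ∈ supp G := by simpa [supp] using ha
    have hb' : b ∈ supp H := by simpa [supp] using hb
    have hb0 : b = 0 := by
      apply inj
      rw [map_zero]
      funext j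
      rcases hj j (Finset.mem_univ j) with h | h
      · have h2 := congrArg (fun x => phi x j) hab
        simp only [map_add, Pi.add_apply, map_zero, Pi.zero_apply, h a ha', h T hT] at h2
        rw [Pi.zero_apply]
        omega
      · rw [h b hb', Pi.zero_apply]
    refine ⟨?_, hb0⟩
    rw [hb0, add_zero, add_zero] at hab
    exact hab
  have h1 := AddMonoidAlgebra.coeff_mul_add_of_uniqueAdd hu
  rwa [add_zero] at h1

/-- Every nonzero element of `ℤ[z, 1/z]` in normal form. -/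
theorem nf_exists {p : RO ℤ} (hp : p ≠ 0) : ∃ (n : ℤ) (g : ℤ[X]), g.coeff 0 ≠ 0 ∧
    p = LaurentPolynomial.T n * toLaurent g := by
  obtain ⟨j, b, hb⟩ := LaurentPolynomial.exists_T_pow p
  have hb0 : b ≠ 0 := by
    rintro rfl
    rw [map_zero] at hb
    have h2 := (LaurentPolynomial.isUnit_T (R := ℤ) (j : ℤ)).ne_zero
    rcases mul_eq_zero.1 hb.symm with h | h
    · exact hp h
    · exact h2 h
  obtain ⟨k, hk⟩ : ∃ k : ℕ, ∃ g : ℤ[X], g.coeff 0 ≠ 0 ∧ b = X ^ k * g := by
    refine ⟨b.natTrailingDegree, ?_⟩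
    obtain ⟨g, hg⟩ := (X_pow_dvd_iff (f := b) (n := b.natTrailingDegree)).2
      (fun d hd => coeff_eq_zero_of_lt_natTrailingDegree hd)
    refine ⟨g, ?_, hg⟩
    intro h0
    obtain ⟨k, hk⟩ : ∃ k, k = b.natTrailingDegree := ⟨_, rfl⟩
    rw [← hk] at hg
    have h1 : b.coeff k = 0 := by
      rw [hg, coeff_X_pow_mul', if_pos le_rfl, Nat.sub_self, h0]
    rw [hk] at h1
    exact hb0 (trailingCoeff_eq_zero.1 h1)
  obtain ⟨g, hg0, hg⟩ := hk
  refine ⟨(k : ℤ) - j, g, hg0, ?_⟩
  have h2 : (LaurentPolynomial.T (-(j : ℤ)) * LaurentPolynomial.T (j : ℤ) : RO ℤ) = 1 := by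
    rw [← LaurentPolynomial.T_add]
    simp
  rw [hg, map_mul, toLaurent_X_pow] at hb
  rw [sub_eq_add_neg, LaurentPolynomial.T_add]
  linear_combination (-p) * h2 - (LaurentPolynomial.T (-(j : ℤ)) : RO ℤ) * hb

/-- The lowest coefficient of a factor of an element with unit lowest coefficient. -/
theorem low_unit {p x : RO ℤ} {m n : ℤ} {r p' : ℤ[X]} (h : p * x = LaurentPolynomial.T m * toLaurent r)
    (hr : |r.coeff 0| = 1) (hp : p = LaurentPolynomial.T n * toLaurent p')
    (hp0 : p'.coeff 0 ≠ 0) : |p'.coeff 0| = 1 := by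
  have hr0 : r.coeff 0 ≠ 0 := by
    intro h0
    rw [h0, abs_zero] at hr
    exact zero_ne_one hr
  have hx : x ≠ 0 := by
    rintro rfl
    rw [mul_zero] at h
    have h3 : toLaurent r = 0 := by
      rcases mul_eq_zero.1 h.symm with h3 | h3
      · exact absurd h3 (LaurentPolynomial.isUnit_T m).ne_zero
      · exact h3
    rw [toLaurent_injective (h3.trans (map_zero _).symm), coeff_zero] at hr0
    exact hr0 rfl
  obtain ⟨k, g, hg0, hg⟩ := nf_exists hx
  have h1 : (LaurentPolynomial.T (n + k) * toLaurent (p' * g) : RO ℤ) =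
      LaurentPolynomial.T m * toLaurent r := by
    rw [← h, hp, hg, map_mul, LaurentPolynomial.T_add]
    ring
  have h2 := (H78.T_eq (by rw [mul_coeff_zero]; exact mul_ne_zero hp0 hg0) hr0 h1).2
  have h3 : |p'.coeff 0| * |g.coeff 0| = 1 := by
    rw [← abs_mul, ← mul_coeff_zero, h2, hr]
  have h4 : |p'.coeff 0| ∣ 1 := ⟨_, h3.symm⟩
  exact Int.isUnit_iff_abs_eq.mp (by
    have := Int.isUnit_iff_abs_eq.mp (isUnit_of_dvd_one h4)
    rw [abs_abs] at this
    exact Int.isUnit_iff_abs_eq.mpr this)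

/-- A factor of class `V(N)` of an element with unit lowest coefficient: `N = 1`. -/
theorem low_classV {p x : RO ℤ} {m : ℤ} {r : ℤ[X]} {N : ℝ}
    (h : p * x = LaurentPolynomial.T m * toLaurent r) (hr : |r.coeff 0| = 1) (hp : ClassV N p) :
    N = 1 := by
  obtain ⟨n, p', hp', h1, h0, -⟩ := H78.classV_nf hp
  have := low_unit h hr hp' h0
  rw [← h1]
  exact_mod_cast this

/-- ONE FACTOR: a closing of class `V(N)`, full rank, without small factors, with a ray whose
coefficient has the lowest coefficient `± 1`. -/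
theorem one_fac (hFD : FDS) (hG0 : G0S) (hC0 : Coeff0S) (hE1 : E1S) (hMV : MVS) (hMm : MmulS)
    (hRk : RkS) (hW : WWfS) (hRF : RayFacS) {P L : Type} [Fintype P] [DecidableEq P] [AddCommGroup L] [Module.Free ℤ L]
    [Module.Finite ℤ L] (phi : L →+ (P → ℤ)) (D : AO ℤ L) (S : L) (i0 : P)
    (h : co phi i0 S = 1) (eta : (RO ℤ)ˣ) (N : ℝ) (hD : DD phi D)
    (hr : 2 ≤ Module.finrank ℤ L) (hR : Ray D S) (hI : ImS phi S)
    (hV : ClassV N (D.coeff 0 + (eta : RO ℤ) * D.coeff S))
    (hrk : Module.finrank ℤ L = rk (supp (cl (co phi i0) S h eta D)) + 1)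
    (hsn : ∀ (c : RO ℤ) (n : ℕ) (G : Fin n → AO ℤ (Ker (co phi i0))),
      FD phi D S i0 eta h c n G → M c = 1 → ¬ (snp phi S i0 G).Nonempty)
    (T : Ker (co phi i0)) (hT : Ray (cl (co phi i0) S h eta D) T) (e1 : RO ℤ) (m : ℤ)
    (g : ℤ[X]) (hg : |g.coeff 0| = 1)
    (hTg : e1 * (cl (co phi i0) S h eta D).coeff T =
      LaurentPolynomial.T m * toLaurent g) :
    ∃ (c : RO ℤ) (G : AO ℤ (Ker (co phi i0))), ClassV 1 c ∧
      cl (co phi i0) S h eta D = cst c * G ∧ DD (phO phi S i0) G ∧ ClassV N (G.coeff 0) := by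
  classical
  obtain ⟨mv1, -⟩ := hMV ℤ
  have hV0 := mv1 _ _ hV
  have cc : CC phi D S i0 eta := ⟨hD, hr, hR, h, hV0.1⟩
  obtain ⟨c, n, G, fd⟩ := hFD ℤ P L phi D S i0 eta h cc
  -- the kernel meets the line of `S` trivially
  have key : ∀ a : Ker (co phi i0), (∀ j, phi S j = 0 → phi (a : L) j = 0) → a = 0 := by
    intro a ha
    obtain ⟨k, hk⟩ := hI (a : L) ha
    have h1 : co phi i0 (a : L) = 0 := a.2
    rw [hk, map_zsmul, h, smul_eq_mul, mul_one] at h1
    apply Subtype.ext
    rw [hk, h1, zero_smul]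
    rfl
  have nopure : ∀ l, ¬ Pure phi S i0 (G l) := by
    intro l hl
    obtain ⟨a, ha, b, hb, hab⟩ := fd.wd l
    apply hab
    have h1 : a = 0 := key a fun j hj => hl a ha j (by
      unfold OO
      exact Finset.mem_filter.mpr ⟨Finset.mem_univ _, hj⟩)
    have h2 : b = 0 := key b fun j hj => hl b hb j (by
      unfold OO
      exact Finset.mem_filter.mpr ⟨Finset.mem_univ _, hj⟩)
    rw [h1, h2]
  -- the marking of the kernel
  have inj : Function.Injective (phO phi S i0) := by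
    rw [injective_iff_map_eq_zero]
    intro a ha
    apply key
    intro j hj
    have h4 : phO phi S i0 a j = 0 := by rw [ha]; rfl
    change (if phi S j = 0 then phi (a : L) j else 0) = 0 at h4
    rw [if_pos hj] at h4
    exact h4
  have hbin : ∀ a : Ker (co phi i0), WW (phK phi (co phi i0)) (II phi S i0) (OO phi S) a →
      Bin (phO phi S i0) a := by
    intro a ha j
    change (if phi S j = 0 then phi (a : L) j else 0) = 0 ∨
      (if phi S j = 0 then phi (a : L) j else 0) = 1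
    by_cases hj : phi S j = 0
    · rw [if_pos hj]
      exact ha.1 j (by
        unfold OO
        exact Finset.mem_filter.mpr ⟨Finset.mem_univ _, hj⟩)
    · left
      rw [if_neg hj]
  have hk0 : co phi i0 ≠ 0 := by
    intro h0
    rw [h0] at h
    exact absurd h (by simp)
  have hcod := (hRk L L).1 (co phi i0) hk0
  -- measures
  have hV2 := hV
  rw [fd.v00] at hV2
  obtain ⟨Nc, Np, hc, hp, hNN⟩ := (hE1 ℤ).1 _ _ _ hV2
  obtain ⟨hGi, hNp⟩ := classV_prod hE1 hMV hMm (fun i => (G i).coeff 0) Finset.univ Np hp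
  have hMc : M c = Nc := (mv1 _ _ hc).2
  have hone : ∀ i, 1 ≤ M ((G i).coeff 0) := fun i => (hGi i (Finset.mem_univ i)).1
  have hG00 : ∀ i, (G i).coeff 0 ≠ 0 := fun i => (mv1 _ _ (hGi i (Finset.mem_univ i))).1
  -- the factor of the ray
  obtain ⟨l, hl⟩ := hRF ℤ P L phi D S i0 eta h c n G fd T hT
  set H : AO ℤ (Ker (co phi i0)) := cst c * ∏ i ∈ Finset.univ.erase l, G i with hH
  have hsplit : cl (co phi i0) S h eta D = G l * H := by
    rw [fd.eq, hH, ← Finset.mul_prod_erase Finset.univ G (Finset.mem_univ l)]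
    ring
  -- products
  have hG0s := hG0 ℤ P L phi D S i0 eta h cc
  obtain ⟨-, lam, hpos, -⟩ := id hG0s.1
  have hGpos : ∀ i, Pos lam (G i) := fun i => (fd.full i lam hpos).2.1
  have hprod0 := fun s : Finset (Fin n) => H29.prod_coeff_zero hC0 G lam hGpos s
  have hH0 : H.coeff 0 = c * ∏ i ∈ Finset.univ.erase l, (G i).coeff 0 := by
    rw [hH, H56.cstm, (hprod0 _).1]
  have hc0 : c ≠ 0 := fd.c0
  have hH00 : H.coeff 0 ≠ 0 := by
    rw [hH0]
    exact mul_ne_zero hc0 (Finset.prod_ne_zero_iff.mpr fun i _ => hG00 i)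
  have hbinV : ∀ a ∈ supp (G l * H), Bin (phO phi S i0) a := by
    intro a ha
    rw [← hsplit] at ha
    exact hbin a (hG0s.2.2.2.1 a ha)
  have hco : (cl (co phi i0) S h eta D).coeff T = (G l).coeff T * H.coeff 0 := by
    rw [hsplit]
    exact coeff_disj hW (phO phi S i0) inj (G l) H hbinV (hG00 l) hH00 T hl
  rw [hco, hH0] at hTg
  -- the content
  have hNc : Nc = 1 := by
    refine low_classV (p := c) (x := e1 * (G l).coeff T *
      ∏ i ∈ Finset.univ.erase l, (G i).coeff 0) (m := m) (r := g) ?_ hg hc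
    rw [← hTg]
    ring
  have hNi : ∀ i, i ≠ l → M ((G i).coeff 0) = 1 := by
    intro i hi
    refine low_classV (p := (G i).coeff 0) (x := e1 * (G l).coeff T * c *
      ∏ i' ∈ (Finset.univ.erase l).erase i, (G i').coeff 0) (m := m) (r := g) ?_ hg
      (hGi i (Finset.mem_univ i))
    rw [← hTg, ← Finset.mul_prod_erase (Finset.univ.erase l) (fun i => (G i).coeff 0)
      (Finset.mem_erase.mpr ⟨hi, Finset.mem_univ i⟩)]
    ring
  have hs := hsn c n G fd (by rw [hMc, hNc])
  have huniq : ∀ i, i = l := by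
    intro i
    by_contra hi
    apply hs
    refine ⟨i, ?_⟩
    unfold snp
    exact Finset.mem_filter.mpr ⟨Finset.mem_univ _, by rw [hNi i hi]; exact lt_irrefl _, nopure i⟩
  have hn1 : n = 1 := by
    have h1 : Fintype.card (Fin n) ≤ 1 := Fintype.card_le_one_iff_subsingleton.mpr
      ⟨fun a b => (huniq a).trans (huniq b).symm⟩
    rw [Fintype.card_fin] at h1
    have h2 := l.isLt
    omega
  subst hn1
  have hprod : cl (co phi i0) S h eta D = cst c * G 0 := by
    rw [fd.eq, Fin.prod_univ_one]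
  have h3 : supp (cl (co phi i0) S h eta D) = supp (G 0) := by
    rw [hprod, H56.supp_cst_mul fd.c0]
  rw [Fin.prod_univ_one] at hp
  refine ⟨c, G 0, ?_, hprod, ⟨inj, ?_, fd.st 0, fd.un 0, fd.irr 0, ?_⟩, ?_⟩
  · rw [← hNc]
    exact hc
  · intro a ha
    exact hbin a (fd.ww 0 a ha)
  · rw [← h3]
    omega
  · have h5 : N = Np := by rw [hNN, hNc, one_mul]
    rw [h5]
    exact hp

end Pool.Agent.B5.H67
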